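import Mathlib

/-!
# MP_f969e6_lc: an iso-dual binary polycyclic code from a trinomial whose generator is no square root

For `n = 20`, `i = 10` and `g = (x² + x + 1) (x⁴ + x³ + 1)²`, a divisor of
`t = x²⁰ + x¹⁰ + 1 = ((x² + x + 1) (x⁴ + x + 1) (x⁴ + x³ + 1))²`, the polycyclic code generated by
`g` is mapped onto its dual by the permutation exchanging the two halves of the coordinates, but
`g² ≠ t`.
-/

open Polynomial

namespace Pool.Agent.Results.MP_f969e6_lc.IsoDualCounterexample

/-- The trinomial `t(x) = x^n + x^i + 1` over `𝔽₂`. -/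
noncomputable def trinomial (n i : ℕ) : (ZMod 2)[X] := X ^ n + X ^ i + 1

/-- The polynomial `c_0 + c_1 x + … + c_{n-1} x^{n-1}` of a word. -/
noncomputable def wordPoly {n : ℕ} (c : Fin n → ZMod 2) : (ZMod 2)[X] :=
  ∑ k : Fin n, C (c k) * X ^ (k : ℕ)

/-- The polycyclic code generated by `g`: the words whose class in `𝔽₂[x] / (x^n + x^i + 1)` lies in
the ideal generated by the class of `g`. -/
def polycyclicCode (n i : ℕ) (g : (ZMod 2)[X]) : Set (Fin n → ZMod 2) :=
  {c | Ideal.Quotient.mk (Ideal.span {trinomial n i}) (wordPoly c) ∈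
    Ideal.span {Ideal.Quotient.mk (Ideal.span {trinomial n i}) g}}

/-- The dual code with respect to the standard inner product. -/
def dualCode {n : ℕ} (C : Set (Fin n → ZMod 2)) : Set (Fin n → ZMod 2) :=
  {u | ∀ c ∈ C, ∑ k, u k * c k = 0}

/-- A code is iso-dual if some permutation of the coordinates maps it onto its dual. -/
def IsIsoDual {n : ℕ} (C : Set (Fin n → ZMod 2)) : Prop :=
  ∃ σ : Equiv.Perm (Fin n), (fun c => c ∘ σ) '' C = dualCode C

/-- The generator `g = x¹⁰ + x⁹ + x⁷ + x⁶ + x² + x + 1`. -/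
noncomputable def gen : (ZMod 2)[X] := X ^ 10 + X ^ 9 + X ^ 7 + X ^ 6 + X ^ 2 + X + 1

/-- coefficients of `gen` -/
def gc (m : ℕ) : ZMod 2 := if m ∈ [0, 1, 2, 6, 7, 9, 10] then 1 else 0

/-- the words of `x^j g` -/
def row (j : Fin 10) (k : Fin 20) : ZMod 2 := if (j : ℕ) ≤ k then gc (k - j) else 0

/-- exchange of the halves -/
def swap : Equiv.Perm (Fin 20) where
  toFun k := k + 10
  invFun k := k + 10
  left_inv := by decide
  right_inv := by decide

/-- message matrix -/
def M (j : Fin 10) (k : Fin 20) : ZMod 2 :=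
  ![![1,1,1,0,0,0,1,1,0,1,0,0,0,0,0,0,0,0,0,0],
    ![0,1,1,1,0,0,0,1,1,0,0,0,0,0,0,0,0,0,0,0],
    ![0,0,1,1,1,0,0,0,1,1,0,0,0,0,0,0,0,0,0,0],
    ![0,0,0,1,1,1,0,0,0,1,0,0,0,0,0,0,0,0,0,0],
    ![0,0,0,0,1,1,1,0,0,0,0,0,0,0,0,0,0,0,0,0],
    ![0,0,0,0,0,1,1,1,0,0,0,0,0,0,0,0,0,0,0,0],
    ![0,0,0,0,0,0,1,1,1,0,0,0,0,0,0,0,0,0,0,0],
    ![0,0,0,0,0,0,0,1,1,1,0,0,0,0,0,0,0,0,0,0],
    ![0,0,0,0,0,0,0,0,1,1,0,0,0,0,0,0,0,0,0,0],
    ![0,0,0,0,0,0,0,0,0,1,0,0,0,0,0,0,0,0,0,0]] j k

/-- correction matrix -/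
def N (k : Fin 20) (l : Fin 10) : ZMod 2 :=
  ![![1,0,0,0,0,0,0,0,0,0], ![1,1,0,0,0,0,0,0,0,0], ![1,1,1,0,0,0,0,0,0,0],
    ![0,1,1,1,0,0,0,0,0,0], ![0,0,1,1,1,0,0,0,0,0], ![0,0,0,1,1,1,0,0,0,0],
    ![1,0,0,0,1,1,1,0,0,0], ![1,1,0,0,0,1,1,1,0,0], ![0,1,1,0,0,0,1,1,1,0],
    ![1,0,1,1,0,0,0,1,1,1], ![0,0,0,0,0,0,0,0,0,0], ![0,0,0,0,0,0,0,0,0,0],
    ![0,0,0,0,0,0,0,0,0,0], ![0,0,0,0,0,0,0,0,0,0], ![0,0,0,0,0,0,0,0,0,0],
    ![0,0,0,0,0,0,0,0,0,0], ![0,0,0,0,0,0,0,0,0,0], ![0,0,0,0,0,0,0,0,0,0],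
    ![0,0,0,0,0,0,0,0,0,0], ![0,0,0,0,0,0,0,0,0,0]] k l

/-- two rows are orthogonal after exchanging the halves of one of them -/
lemma row_orth : ∀ j l : Fin 10, ∑ k, row j (swap k) * row l k = 0 := by
  decide +kernel

/-- `P_σ = Mᵀ-combination of the rows + combination of the parity checks` -/
lemma key : ∀ k k' : Fin 20, (if swap k = k' then (1 : ZMod 2) else 0) =
    ∑ j, M j k' * row j k + ∑ l, N k l * row l k' := by
  decide +kernel

lemma trinomial_eq : trinomial 20 10 = gen *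
    (X ^ 10 + X ^ 9 + X ^ 8 + X ^ 4 + X ^ 3 + X + 1) := by
  unfold trinomial gen
  have h2 : (2 : (ZMod 2)[X]) = 0 := CharTwo.two_eq_zero
  linear_combination (-(X ^ 19 + X ^ 18 + X ^ 17 + X ^ 16 + X ^ 15 + X ^ 14 + X ^ 13 + X ^ 12 +
    2 * X ^ 11 + 3 * X ^ 10 + 2 * X ^ 9 + X ^ 8 + X ^ 7 + X ^ 6 + X ^ 5 + X ^ 4 + X ^ 3 + X ^ 2 + X :
    (ZMod 2)[X])) * h2

lemma gen_dvd : gen ∣ trinomial 20 10 := ⟨_, trinomial_eq⟩

lemma gen_coeff (m : ℕ) : gen.coeff m = gc m := by
  unfold gen gc
  simp only [coeff_add, coeff_X_pow, coeff_X, coeff_one]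
  by_cases h : m ≤ 10
  · interval_cases m <;> decide
  · have h1 : m ∉ [0, 1, 2, 6, 7, 9, 10] := by
      simp only [List.mem_cons, List.not_mem_nil, or_false, not_or]
      omega
    rw [if_neg h1, if_neg (by omega), if_neg (by omega), if_neg (by omega), if_neg (by omega),
      if_neg (by omega), if_neg (by omega), if_neg (by omega)]
    simp

lemma gen_monic : gen.Monic := by
  unfold gen
  monicity!

lemma gen_natDegree : gen.natDegree = 10 := by
  unfold gen
  compute_degree!

lemma gen_sq : gen ^ 2 ≠ trinomial 20 10 := by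
  intro h
  have h1 := congrArg (fun p => p.coeff 2) h
  have h2 : gen ^ 2 = gen * gen := sq gen
  simp only [h2, coeff_mul, gen_coeff] at h1
  have h3 : (trinomial 20 10).coeff 2 = 0 := by
    unfold trinomial
    simp only [coeff_add, coeff_X_pow, coeff_one]
    decide
  rw [h3] at h1
  revert h1
  decide

/-- coefficients of a word polynomial -/
lemma word_coeff (c : Fin 20 → ZMod 2) (k : Fin 20) : (wordPoly c).coeff k = c k := by
  unfold wordPoly
  simp only [finsetSum_coeff, coeff_C_mul_X_pow]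
  rw [Finset.sum_eq_single k]
  · simp
  · intro b _ hb
    rw [if_neg]
    intro h
    exact hb (Fin.ext h.symm)
  · simp

lemma word_coeff_ge (c : Fin 20 → ZMod 2) (m : ℕ) (hm : 20 ≤ m) : (wordPoly c).coeff m = 0 := by
  unfold wordPoly
  simp only [finsetSum_coeff, coeff_C_mul_X_pow]
  apply Finset.sum_eq_zero
  intro b _
  rw [if_neg]
  have := b.isLt
  omega

lemma mul_coeff (a : Fin 10 → ZMod 2) (k : Fin 20) :
    (gen * ∑ j : Fin 10, C (a j) * X ^ (j : ℕ)).coeff k = ∑ j, a j * row j k := by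
  rw [Finset.mul_sum, finsetSum_coeff]
  refine Finset.sum_congr rfl fun j _ => ?_
  rw [show gen * (C (a j) * X ^ (j : ℕ)) = C (a j) * (gen * X ^ (j : ℕ)) by ring, coeff_C_mul,
    coeff_mul_X_pow']
  unfold row
  split_ifs with h
  · rw [gen_coeff]
  · rfl

lemma mem_code_iff_dvd (c : Fin 20 → ZMod 2) :
    c ∈ polycyclicCode 20 10 gen ↔ gen ∣ wordPoly c := by
  unfold polycyclicCode
  rw [Set.mem_ofPred_eq, Ideal.mem_span_singleton]
  constructor
  · rintro ⟨y, hy⟩
    obtain ⟨b, rfl⟩ := Ideal.Quotient.mk_surjective y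
    rw [← map_mul, Ideal.Quotient.eq, Ideal.mem_span_singleton] at hy
    have h1 := gen_dvd.trans hy
    have h2 : gen ∣ gen * b := dvd_mul_right _ _
    have h3 := dvd_add h1 h2
    simpa using h3
  · intro h
    exact map_dvd _ h

lemma mem_code (c : Fin 20 → ZMod 2) :
    c ∈ polycyclicCode 20 10 gen ↔ ∃ a : Fin 10 → ZMod 2, ∀ k, c k = ∑ j, a j * row j k := by
  rw [mem_code_iff_dvd]
  constructor
  · rintro ⟨b, hb⟩
    have hdeg : b.natDegree < 10 := by
      by_contra hcon
      push Not at hcon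
      have hb0 : b ≠ 0 := by
        rintro rfl
        simp at hcon
      have h1 : (gen * b).natDegree = 10 + b.natDegree := by
        rw [gen_monic.natDegree_mul' hb0, gen_natDegree]
      have h2 : (gen * b).coeff (10 + b.natDegree) ≠ 0 := by
        rw [← h1]
        have : gen * b ≠ 0 := by
          intro h0
          rw [h0, natDegree_zero] at h1
          omega
        exact leadingCoeff_ne_zero.mpr this
      rw [← hb] at h2
      exact h2 (word_coeff_ge c _ (by omega))
    refine ⟨fun j => b.coeff j, fun k => ?_⟩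
    rw [← mul_coeff, ← word_coeff c k, hb]
    congr 2
    conv_lhs => rw [b.as_sum_range_C_mul_X_pow' hdeg]
    rw [Finset.sum_range]
  · rintro ⟨a, ha⟩
    refine ⟨∑ j : Fin 10, C (a j) * X ^ (j : ℕ), ?_⟩
    ext m
    by_cases hm : m < 20
    · have h1 := mul_coeff a ⟨m, hm⟩
      have h2 := word_coeff c ⟨m, hm⟩
      simp only at h1 h2
      rw [h1, h2]
      exact ha _
    · rw [word_coeff_ge c m (by omega)]
      symm
      apply coeff_eq_zero_of_natDegree_lt
      have h3 : (∑ j : Fin 10, C (a j) * X ^ (j : ℕ)).natDegree ≤ 9 := by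
        apply natDegree_sum_le_of_forall_le
        intro j _
        refine (natDegree_C_mul_X_pow_le _ _).trans ?_
        have := j.isLt
        omega
      have h4 := natDegree_mul_le (p := gen) (q := ∑ j : Fin 10, C (a j) * X ^ (j : ℕ))
      rw [gen_natDegree] at h4
      omega

lemma isoDual : IsIsoDual (polycyclicCode 20 10 gen) := by
  refine ⟨swap, ?_⟩
  ext u
  constructor
  · rintro ⟨c, hc, rfl⟩
    intro d hd
    obtain ⟨a, ha⟩ := (mem_code c).mp hc
    obtain ⟨b, hb⟩ := (mem_code d).mp hd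
    have h1 : ∀ k, (c ∘ swap) k * d k =
        ∑ j, ∑ l, a j * b l * (row j (swap k) * row l k) := by
      intro k
      rw [Function.comp_apply, ha, hb, Finset.sum_mul_sum]
      refine Finset.sum_congr rfl fun j _ => Finset.sum_congr rfl fun l _ => ?_
      ring
    simp only [h1]
    rw [Finset.sum_comm]
    apply Finset.sum_eq_zero
    intro j _
    rw [Finset.sum_comm]
    apply Finset.sum_eq_zero
    intro l _
    rw [← Finset.mul_sum, row_orth, mul_zero]
  · intro hu
    have hrow : ∀ l, ∑ k, row l k * u k = 0 := by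
      intro l
      have h1 : row l ∈ polycyclicCode 20 10 gen := by
        rw [mem_code]
        refine ⟨Pi.single l 1, fun k => ?_⟩
        rw [Finset.sum_eq_single l]
        · simp
        · intro b _ hb
          simp [hb]
        · simp
      have h2 := hu _ h1
      rw [← h2]
      exact Finset.sum_congr rfl fun k _ => mul_comm _ _
    refine ⟨u ∘ swap, ?_, ?_⟩
    · rw [mem_code]
      refine ⟨fun j => ∑ k', M j k' * u k', fun k => ?_⟩
      have h1 : (u ∘ swap) k = ∑ k', (if swap k = k' then (1 : ZMod 2) else 0) * u k' := by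
        rw [Finset.sum_eq_single (swap k)]
        · simp
        · intro b _ hb
          rw [if_neg (Ne.symm hb), zero_mul]
        · simp
      rw [h1]
      simp only [key, add_mul, Finset.sum_add_distrib]
      have h2 : ∑ k', (∑ l, N k l * row l k') * u k' = 0 := by
        simp only [Finset.sum_mul]
        rw [Finset.sum_comm]
        apply Finset.sum_eq_zero
        intro l _
        have : ∀ k', N k l * row l k' * u k' = N k l * (row l k' * u k') := fun k' => mul_assoc _ _ _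
        simp only [this]
        rw [← Finset.mul_sum, hrow, mul_zero]
      rw [h2, add_zero]
      simp only [Finset.sum_mul]
      rw [Finset.sum_comm]
      refine Finset.sum_congr rfl fun j _ => Finset.sum_congr rfl fun k' _ => ?_
      ring
    · funext k
      have : swap (swap k) = k := swap.left_inv k
      simp only [Function.comp_apply, this]

/-- There are `n > i ≥ 1` and a monic divisor `g` of `t = x^n + x^i + 1` over `𝔽₂` such that the
polycyclic code generated by `g` is iso-dual although `g² ≠ t`; explicitly `n = 20`, `i = 10` and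
`g = x¹⁰ + x⁹ + x⁷ + x⁶ + x² + x + 1`. -/
theorem result :
    gen.Monic ∧ gen ∣ trinomial 20 10 ∧ IsIsoDual (polycyclicCode 20 10 gen) ∧
      gen ^ 2 ≠ trinomial 20 10 :=
  ⟨gen_monic, gen_dvd, isoDual, gen_sq⟩

end Pool.Agent.Results.MP_f969e6_lc.IsoDualCounterexample
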